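import Pool.Agent.H477.E.Loc1
import Pool.Agent.H487.ED.Stm

set_option autoImplicit false

/-!
Project ED: two-sided bounds for the half circle integral with a small loss (modification of
`Pool/Agent/H477/E/Loc2.lean`).
-/

open Finset Complex Filter Topology Metric Set MeasureTheory

namespace Pool.Agent.H721.ED.Twoe

open Pool.Agent.H477.Jen
open Pool.Agent.H477.E

variable {f : ℂ → ℂ} {k : ℕ} {lam t η : ℝ}

/-- the main part of the half circle integral -/
theorem main_e (e1 e2 : ℝ) (he2 : 0 < e2)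
    (hsad : ∃ ε0 : ℝ, 0 < ε0 ∧ ∃ k0 : ℕ, ∀ k : ℕ, k0 ≤ k → ∀ G : ℂ → ℂ,
    DifferentiableOn ℂ G (ball 0 (1 / 4)) → (∀ z ∈ ball (0 : ℂ) (1 / 4), |(G z).re| ≤ ε0 * k) →
    Real.exp (k - e1 * k + (G 0).re) ≤
      ‖∫ x in (-(1 / 8) : ℝ)..(1 / 8), cexp (k * (cexp (I * x) - I * x) + G x)‖) :
    ∃ η0 : ℝ, 0 < η0 ∧ η0 ≤ e2 ∧ ∃ k0 : ℕ, ∀ (f : ℂ → ℂ), Differentiable ℂ f → ∀ k : ℕ, k0 ≤ k → ∀ lam t : ℝ,
      0 < lam → k / lam ≤ 1 / 100 → LGd f k lam t η0 → ∀ c : ℂ, ‖c - t‖ ≤ k / lam / 8 →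
      ‖f (t - I * ((k / lam : ℝ) : ℂ))‖ * Real.exp (-(lam * c.im) - e1 * k - η0 * k) ≤
        ‖∫ x in (-(1 / 8) : ℝ)..(1 / 8), f (c + -(I * ((k / lam : ℝ) : ℂ)) * exp (I * x)) * exp (-(I * k * x))‖ := by
  obtain ⟨ε0, hε0, k0, hS⟩ := hsad
  refine ⟨min (ε0 / 4) e2, by positivity, min_le_right _ _, max k0 1, ?_⟩
  intro f hf k hk lam t hlam hr h c hc
  set η := min (ε0 / 4) e2 with hη
  have hη0 : 0 < η := by positivity
  have hηε : η ≤ ε0 / 4 := min_le_left _ _
  have hk1 : 1 ≤ k := (le_max_right _ _).trans hk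
  have hk0 : (0:ℝ) < k := by exact_mod_cast hk1
  set r : ℝ := k / lam with hrdef
  have hr0 : 0 < r := by positivity
  have hlr : lam * r = k := by rw [hrdef]; field_simp
  set F0 := ‖f (t - I * (r : ℂ))‖ with hF0
  have hF0pos : 0 < F0 := norm_pos_iff.2 h.ne
  set u : ℂ := -(I * (r : ℂ)) with hu
  set g : ℂ → ℂ := fun φ => f (c + u * exp (I * φ)) * exp (-(I * lam * (c + u * exp (I * φ) - t))) with hg
  have hgd : Differentiable ℂ g := by
    rw [hg]
    intro φ
    have h1 : DifferentiableAt ℂ (fun φ : ℂ => c + u * exp (I * φ)) φ := by fun_prop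
    exact ((hf _).comp φ h1).mul (by fun_prop)
  have hc1 : |c.re - t| ≤ r / 8 := by
    have := (abs_re_le_norm (c - t)).trans hc
    simpa using this
  have hc2 : |c.im| ≤ r / 8 := by
    have := (abs_im_le_norm (c - t)).trans hc
    simpa using this
  -- bounds of g
  have hgb : ∀ φ : ℂ, ‖φ‖ ≤ 1 / 4 → F0 * Real.exp (-k - η * k) ≤ ‖g φ‖ ∧ ‖g φ‖ ≤ F0 * Real.exp (-k + 13 / 4 * η * k) := by
    intro φ hφ
    set z := c + u * exp (I * φ) with hz
    have h1 : ‖exp (I * φ) - 1‖ ≤ 1 / 2 := by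
      have h2 := norm_exp_sub_one_le (x := I * φ) (by rw [norm_mul, norm_I, one_mul]; linarith)
      rw [norm_mul, norm_I, one_mul] at h2
      linarith
    have hzz : z - (c + u) = u * (exp (I * φ) - 1) := by rw [hz]; ring
    have hun : ‖u‖ = r := by
      rw [hu, norm_neg, norm_mul, norm_I, one_mul, norm_real, Real.norm_eq_abs, abs_of_pos hr0]
    have h3 : ‖z - (c + u)‖ ≤ r / 2 := by
      rw [hzz, norm_mul, hun]
      nlinarith
    have h4 := (abs_re_le_norm (z - (c + u))).trans h3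
    have h5 := (abs_im_le_norm (z - (c + u))).trans h3
    have hure : u.re = 0 := by simp [hu]
    have huim : u.im = -r := by simp [hu]
    have h4' : (z - (c + u)).re = z.re - c.re := by rw [sub_re, add_re c u, hure]; ring
    have h5' : (z - (c + u)).im = z.im - (c.im + -r) := by rw [sub_im, add_im c u, huim]
    rw [h4'] at h4
    rw [h5'] at h5
    obtain ⟨a1, a2⟩ := abs_le.1 hc1
    obtain ⟨a3, a4⟩ := abs_le.1 hc2
    obtain ⟨a5, a6⟩ := abs_le.1 h4
    obtain ⟨a7, a8⟩ := abs_le.1 h5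
    have b1 : |z.re - t| ≤ 5 / 8 * r := by rw [abs_le]; constructor <;> linarith
    have b2 : |z.im| = -z.im := abs_of_nonpos (by linarith)
    have hgn : ‖g φ‖ = ‖f z‖ * Real.exp (lam * z.im) := by
      rw [hg]
      simp only []
      rw [norm_mul, norm_exp]
      congr 2
      have : (-(I * lam * (z - t))).re = lam * z.im := by simp
      exact this
    rw [hgn]
    constructor
    · exact h.low z (by linarith) (by linarith) (by linarith)
    · have hup := h.up' hk1 hlam hr hη0.le (z := z) (by linarith) (by rw [b2]; linarith) (by rw [b2]; linarith)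
      calc ‖f z‖ * Real.exp (lam * z.im) ≤ (F0 * Real.exp (-k + lam * |z.im| + 13 / 4 * η * k)) * Real.exp (lam * z.im) := by
            gcongr
        _ = F0 * Real.exp (-k + 13 / 4 * η * k) := by
            rw [mul_assoc, ← Real.exp_add, b2]
            congr 2
            ring
  have hgne : ∀ φ : ℂ, ‖φ‖ ≤ 1 / 4 → g φ ≠ 0 := by
    intro φ hφ
    have := (hgb φ hφ).1
    intro h0
    rw [h0, norm_zero] at this
    have : 0 < F0 * Real.exp (-k - η * k) := by positivity
    linarith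
  obtain ⟨Lg, hL0, hL1, hL2⟩ := exists_log hgd (by norm_num : (0:ℝ) < 1 / 4) hgne
  set A : ℂ := ((F0 * Real.exp (-k) : ℝ) : ℂ) with hA
  have hApos : 0 < F0 * Real.exp (-(k:ℝ)) := by positivity
  have hAne : A ≠ 0 := by
    rw [hA]
    exact_mod_cast hApos.ne'
  set G : ℂ → ℂ := fun φ => Lg φ + log (g 0 / A) with hG
  have hgA : ∀ φ ∈ ball (0:ℂ) (1 / 4), g φ = A * exp (G φ) := by
    intro φ hφ
    rw [hG]
    simp only []
    rw [exp_add, exp_log (div_ne_zero (hgne 0 (by simp)) hAne), hL2 φ hφ]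
    field_simp
  have hGre : ∀ φ ∈ ball (0:ℂ) (1 / 4), -(η * k) ≤ (G φ).re ∧ (G φ).re ≤ 13 / 4 * η * k := by
    intro φ hφ
    have h1 := hgb φ (mem_ball_zero_iff.1 hφ).le
    rw [hgA φ hφ, norm_mul, norm_exp, hA, norm_real, Real.norm_eq_abs, abs_of_pos hApos] at h1
    constructor
    · have h2 := h1.1
      rw [mul_assoc, ← Real.exp_add] at h2
      have h3 := Real.exp_le_exp.1 (le_of_mul_le_mul_left h2 hF0pos)
      linarith
    · have h2 := h1.2
      rw [mul_assoc, ← Real.exp_add] at h2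
      have h3 := Real.exp_le_exp.1 (le_of_mul_le_mul_left h2 hF0pos)
      linarith
  have hGd : DifferentiableOn ℂ G (ball 0 (1 / 4)) := by
    intro φ hφ
    exact ((hL1 φ hφ).differentiableAt.add_const _).differentiableWithinAt
  have hsp := hS k ((le_max_left _ _).trans hk) G hGd (by
    intro φ hφ
    obtain ⟨h1, h2⟩ := hGre φ hφ
    rw [abs_le]
    have h3 : 13 / 4 * η * k ≤ ε0 * k := by
      apply mul_le_mul_of_nonneg_right _ hk0.le
      linarith
    have h4 : η * k ≤ ε0 * k := mul_le_mul_of_nonneg_right (by linarith) hk0.le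
    constructor <;> linarith)
  have hint : ∫ x in (-(1 / 8) : ℝ)..(1 / 8), f (c + u * exp (I * x)) * exp (-(I * k * x)) =
      (A * exp (I * lam * (c - t))) * ∫ x in (-(1 / 8) : ℝ)..(1 / 8), cexp (k * (cexp (I * x) - I * x) + G x) := by
    rw [← intervalIntegral.integral_const_mul]
    apply intervalIntegral.integral_congr
    intro x hx
    rw [Set.uIcc_of_le (by norm_num)] at hx
    have hxb : (x:ℂ) ∈ ball (0:ℂ) (1 / 4) := by
      rw [mem_ball_zero_iff, norm_real, Real.norm_eq_abs]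
      exact (abs_le.2 hx).trans_lt (by norm_num)
    simp only []
    have h1 : f (c + u * exp (I * x)) = g x * exp (I * lam * (c + u * exp (I * x) - t)) := by
      rw [hg]
      simp only []
      rw [mul_assoc, ← exp_add, neg_add_cancel, exp_zero, mul_one]
    rw [h1, hgA _ hxb]
    have h2 : (I:ℂ) * lam * u = k := by
      rw [hu]
      have : (I:ℂ) * lam * -(I * r) = -(I * I) * ((lam * r : ℝ) : ℂ) := by push_cast; ring
      rw [this, I_mul_I, hlr]
      simp
    have h3 : I * lam * (c + u * exp (I * x) - t) = I * lam * (c - t) + k * exp (I * x) := by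
      rw [← h2]; ring
    have h5 : cexp (k * (cexp (I * x) - I * x) + G x) = cexp (k * cexp (I * x)) * cexp (-(I * k * x)) * cexp (G x) := by
      rw [← exp_add, ← exp_add]; congr 1; ring
    rw [h3, exp_add (I * lam * (c - t)), h5]
    ring
  rw [hint, norm_mul, norm_mul, norm_exp, hA, norm_real, Real.norm_eq_abs, abs_of_pos hApos]
  have hre : (I * lam * (c - t)).re = -(lam * c.im) := by simp
  rw [hre]
  have hG0 := (hGre 0 (mem_ball_self (by norm_num))).1
  calc F0 * Real.exp (-(lam * c.im) - e1 * k - η * k)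
      = F0 * Real.exp (-(k:ℝ)) * Real.exp (-(lam * c.im)) * Real.exp (k - e1 * k - η * k) := by
        rw [mul_assoc, mul_assoc, ← Real.exp_add, ← Real.exp_add]
        congr 2
        ring
    _ ≤ F0 * Real.exp (-(k:ℝ)) * Real.exp (-(lam * c.im)) * Real.exp (k - e1 * k + (G 0).re) := by
        apply mul_le_mul_of_nonneg_left _ (by positivity)
        apply Real.exp_le_exp.2
        linarith
    _ ≤ _ := mul_le_mul_of_nonneg_left hsp (by positivity)

/-- two-sided bounds -/
theorem two_e (hsad : Pool.Agent.H487.ED.S_SADE) (ε : ℝ) (hε : 0 < ε) (hε1 : ε ≤ 1 / 1000) :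
    ∃ η0 : ℝ, 0 < η0 ∧ η0 ≤ 1 ∧ ∃ k0 : ℕ, ∀ (f : ℂ → ℂ), Differentiable ℂ f → ∀ k : ℕ, k0 ≤ k → ∀ lam t : ℝ,
      0 < lam → k / lam ≤ 1 / 100 → LGd f k lam t η0 → ∀ c : ℂ, ‖c - t‖ ≤ k / lam / 8 →
      ‖f (t - I * ((k / lam : ℝ) : ℂ))‖ * Real.exp (-(lam * c.im) - ε * k) ≤
        ‖half f (-(I * ((k / lam : ℝ) : ℂ))) k c‖ ∧
      ‖half f (-(I * ((k / lam : ℝ) : ℂ))) k c‖ ≤
        ‖f (t - I * ((k / lam : ℝ) : ℂ))‖ * Real.exp (-(lam * c.im) + ε * k) := by
  obtain ⟨η, hη0, hη1, k0, hM⟩ := main_e (ε / 4) (ε / 100) (by positivity) (hsad (ε / 4) (by positivity))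
  refine ⟨η, hη0, by linarith, max k0 (⌈8 / ε⌉₊ + 1), ?_⟩
  intro f hf k hk lam t hlam hr h c hc
  have hm := hM f hf k ((le_max_left _ _).trans hk) lam t hlam hr h c hc
  have hk2 : ⌈8 / ε⌉₊ + 1 ≤ k := (le_max_right _ _).trans hk
  have hk1 : 1 ≤ k := by omega
  have hk0 : (0:ℝ) < k := by exact_mod_cast hk1
  have hεk : 8 ≤ ε * k := by
    have h1 : 8 / ε ≤ (⌈8 / ε⌉₊ : ℝ) := Nat.le_ceil _
    have h2 : ((⌈8 / ε⌉₊ + 1 : ℕ) : ℝ) ≤ k := by exact_mod_cast hk2
    push_cast at h2
    have h3 : 8 / ε ≤ k := by linarith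
    rw [div_le_iff₀ hε] at h3
    linarith
  have hεk2 : ε * k ≤ k / 1000 := by
    calc ε * k ≤ 1 / 1000 * k := mul_le_mul_of_nonneg_right hε1 hk0.le
      _ = _ := by ring
  set r : ℝ := k / lam with hrdef
  set F0 := ‖f (t - I * (r : ℂ))‖ with hF0
  have hF0pos : 0 < F0 := norm_pos_iff.2 h.ne
  set u : ℂ := -(I * (r : ℂ)) with hu
  have hpi := Real.pi_lt_d4
  have hpi0 := Real.pi_pos
  have hpi3 := Real.pi_gt_three
  set q : ℝ → ℂ := fun x => f (c + u * exp (I * x)) * exp (-(I * k * x)) with hq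
  have hqc : Continuous q := by
    have := hf.continuous
    rw [hq]
    fun_prop
  have hqn : ∀ x : ℝ, ‖q x‖ = ‖f (c + u * exp (I * x))‖ := by
    intro x
    rw [hq]
    simp only []
    rw [norm_mul, norm_exp]
    have : (-(I * (k:ℂ) * (x:ℂ))).re = 0 := by simp
    rw [this, Real.exp_zero, mul_one]
  have hηk : η * k ≤ ε * k / 100 := by
    calc η * k ≤ ε / 100 * k := mul_le_mul_of_nonneg_right hη1 hk0.le
      _ = _ := by ring
  have hηk' : 13 / 4 * η * k ≤ ε * k / 20 := by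
    have e0 : 13 / 4 * η * k = 13 / 4 * (η * k) := by ring
    rw [e0]
    linarith
  set E := F0 * Real.exp (-(lam * c.im)) with hE
  have hE0 : 0 < E := by positivity
  have hexp4 : (16:ℝ) ≤ Real.exp 4 := by
    have h1 := Real.exp_one_gt_d9
    have h2 : Real.exp 4 = Real.exp 1 ^ 4 := by rw [← Real.exp_nat_mul]; norm_num
    rw [h2]
    calc (16:ℝ) = 2 ^ 4 := by norm_num
      _ ≤ Real.exp 1 ^ 4 := pow_le_pow_left₀ (by norm_num) (by linarith) 4
  have hsmall : ∀ y : ℝ, 4 ≤ y → Real.exp (-y) ≤ 1 / 16 := by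
    intro y hy
    calc Real.exp (-y) ≤ Real.exp (-4) := by
          apply Real.exp_le_exp.2
          linarith
      _ = 1 / Real.exp 4 := by rw [Real.exp_neg, one_div]
      _ ≤ 1 / 16 := one_div_le_one_div_of_le (by norm_num) hexp4
  have hhalf : half f u k c = ∫ x in (-(Real.pi / 2))..(Real.pi / 2), q x := rfl
  constructor
  · -- lower bound
    have hsplit : half f u k c = (∫ x in (-(Real.pi / 2))..(-(1 / 8)), q x) + (∫ x in (-(1 / 8) : ℝ)..(1 / 8), q x) +
        ∫ x in (1 / 8 : ℝ)..(Real.pi / 2), q x := by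
      rw [hhalf, intervalIntegral.integral_add_adjacent_intervals (hqc.intervalIntegrable _ _)
        (hqc.intervalIntegrable _ _), intervalIntegral.integral_add_adjacent_intervals
        (hqc.intervalIntegrable _ _) (hqc.intervalIntegrable _ _)]
    set δ := E * Real.exp (-(k / 320) + ε * k / 20) with hδ
    have hout : ∀ x : ℝ, 1 / 8 ≤ |x| → |x| ≤ Real.pi / 2 → ‖q x‖ ≤ δ := by
      intro x h1 h2
      rw [hqn]
      refine ((h.circ hk1 hlam hr hη0.le hc h2).2 h1).trans ?_
      have e0 : δ = F0 * Real.exp (-(lam * c.im) + (-(k / 320) + ε * k / 20)) := by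
        rw [hδ, hE, mul_assoc F0, ← Real.exp_add]
      rw [e0]
      apply mul_le_mul_of_nonneg_left _ hF0pos.le
      apply Real.exp_le_exp.2
      linarith
    have ho1 : ‖∫ x in (-(Real.pi / 2))..(-(1 / 8)), q x‖ ≤ δ * 2 := by
      refine (intervalIntegral.norm_integral_le_of_norm_le_const (C := δ) (fun x hx => ?_)).trans ?_
      · rw [uIoc_of_le (by linarith)] at hx
        apply hout
        · rw [abs_of_nonpos (by linarith [hx.2])]; linarith [hx.2]
        · rw [abs_of_nonpos (by linarith [hx.2])]; linarith [hx.1]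
      · apply mul_le_mul_of_nonneg_left _ (by positivity)
        rw [abs_of_nonneg (by linarith)]
        linarith
    have ho2 : ‖∫ x in (1 / 8 : ℝ)..(Real.pi / 2), q x‖ ≤ δ * 2 := by
      refine (intervalIntegral.norm_integral_le_of_norm_le_const (C := δ) (fun x hx => ?_)).trans ?_
      · rw [uIoc_of_le (by linarith)] at hx
        apply hout
        · rw [abs_of_nonneg (by linarith [hx.1])]; linarith [hx.1]
        · rw [abs_of_nonneg (by linarith [hx.1])]; linarith [hx.2]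
      · apply mul_le_mul_of_nonneg_left _ (by positivity)
        rw [abs_of_nonneg (by linarith)]
        linarith
    set X := Real.exp (-(ε / 4 * k) - ε * k / 100) with hX
    have hX0 : 0 < X := Real.exp_pos _
    have hlow : E * X ≤ ‖∫ x in (-(1 / 8) : ℝ)..(1 / 8), q x‖ := by
      refine le_trans ?_ hm
      rw [hE, hX, mul_assoc F0, ← Real.exp_add]
      apply mul_le_mul_of_nonneg_left _ hF0pos.le
      apply Real.exp_le_exp.2
      linarith
    have hfin : E * Real.exp (-(ε * k)) + 4 * δ ≤ E * X := by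
      rw [hδ]
      have e1 : Real.exp (-(ε * k)) ≤ X * (1 / 16) := by
        have e0 : Real.exp (-(ε * k)) = X * Real.exp (-(ε * k * (74 / 100))) := by
          rw [hX, ← Real.exp_add]; congr 1; ring
        rw [e0]
        exact mul_le_mul_of_nonneg_left (hsmall _ (by linarith)) hX0.le
      have e2 : Real.exp (-(k / 320 : ℝ) + ε * k / 20) ≤ X * (1 / 16) := by
        have e0 : Real.exp (-(k / 320 : ℝ) + ε * k / 20) ≤ X * Real.exp (-(ε * k / 2)) := by
          rw [hX, ← Real.exp_add]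
          apply Real.exp_le_exp.2
          linarith
        refine e0.trans ?_
        exact mul_le_mul_of_nonneg_left (hsmall _ (by linarith)) hX0.le
      have e5 : Real.exp (-(ε * k)) + 4 * Real.exp (-(k / 320 : ℝ) + ε * k / 20) ≤ X := by linarith
      calc E * Real.exp (-(ε * k)) + 4 * (E * Real.exp (-(k / 320 : ℝ) + ε * k / 20))
          = E * (Real.exp (-(ε * k)) + 4 * Real.exp (-(k / 320 : ℝ) + ε * k / 20)) := by ring
        _ ≤ E * X := mul_le_mul_of_nonneg_left e5 hE0.le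
    have hn : ‖∫ x in (-(1 / 8) : ℝ)..(1 / 8), q x‖ ≤ ‖half f u k c‖ + δ * 2 + δ * 2 := by
      have : (∫ x in (-(1 / 8) : ℝ)..(1 / 8), q x) = half f u k c - (∫ x in (-(Real.pi / 2))..(-(1 / 8)), q x) -
          ∫ x in (1 / 8 : ℝ)..(Real.pi / 2), q x := by rw [hsplit]; ring
      rw [this]
      refine (norm_sub_le _ _).trans (add_le_add ((norm_sub_le _ _).trans (add_le_add le_rfl ho1)) ho2)
    have e0 : F0 * Real.exp (-(lam * c.im) - ε * k) = E * Real.exp (-(ε * k)) := by
      rw [hE, mul_assoc F0, ← Real.exp_add]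
      congr 2
    rw [e0]
    linarith
  · have h1 : ‖half f u k c‖ ≤ (F0 * Real.exp (-(lam * c.im) + 13 / 4 * η * k)) * |Real.pi / 2 - -(Real.pi / 2)| := by
      rw [hhalf]
      apply intervalIntegral.norm_integral_le_of_norm_le_const
      intro x hx
      rw [uIoc_of_le (by linarith)] at hx
      rw [hqn]
      exact (h.circ hk1 hlam hr hη0.le hc (abs_le.2 ⟨hx.1.le, hx.2⟩)).1
    refine h1.trans ?_
    have e1 : |Real.pi / 2 - -(Real.pi / 2)| ≤ Real.exp 4 := by
      rw [abs_of_nonneg (by linarith)]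
      linarith
    calc (F0 * Real.exp (-(lam * c.im) + 13 / 4 * η * k)) * |Real.pi / 2 - -(Real.pi / 2)|
        ≤ (F0 * Real.exp (-(lam * c.im) + 13 / 4 * η * k)) * Real.exp 4 := by gcongr
      _ = F0 * Real.exp (-(lam * c.im) + 13 / 4 * η * k + 4) := by rw [mul_assoc, ← Real.exp_add]
      _ ≤ _ := by
        apply mul_le_mul_of_nonneg_left _ hF0pos.le
        apply Real.exp_le_exp.2
        linarith

theorem twoe_proof : Pool.Agent.H487.ED.S_SADE → Pool.Agent.H487.ED.S_TWOE := by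
  intro hsad ε hε
  obtain ⟨e, he⟩ : ∃ e : ℝ, e = min ε (1 / 1000) := ⟨_, rfl⟩
  have he0 : 0 < e := by rw [he]; positivity
  have heε : e ≤ ε := by rw [he]; exact min_le_left _ _
  have he1 : e ≤ 1 / 1000 := by rw [he]; exact min_le_right _ _
  obtain ⟨η0, h1, h2, k0, h3⟩ := two_e hsad e he0 he1
  refine ⟨η0, h1, h2, k0, fun f hf k hk lam t hlam hr h c hc => ?_⟩
  obtain ⟨a1, a2⟩ := h3 f hf k hk lam t hlam hr h c hc
  have hk0 : (0:ℝ) ≤ k := Nat.cast_nonneg k
  have hek : e * k ≤ ε * k := mul_le_mul_of_nonneg_right heε hk0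
  refine ⟨le_trans ?_ a1, a2.trans ?_⟩
  · apply mul_le_mul_of_nonneg_left _ (norm_nonneg _)
    apply Real.exp_le_exp.2
    linarith
  · apply mul_le_mul_of_nonneg_left _ (norm_nonneg _)
    apply Real.exp_le_exp.2
    linarith

end Pool.Agent.H721.ED.Twoe
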