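import Pool.Agent.H500.ED.Stm

/-! Project ED, part C1: the field of an open subgroup (`S_FXE`). -/

set_option autoImplicit false
set_option linter.unusedSectionVars false

namespace Pool.Agent.H721.ED.FXE

open NumberField IsDedekindDomain Filter Topology Polynomial
open Pool.Agent.W401.Cheb (GK)
open Pool.Agent.H500.ED

section

variable {K : Type} [Field K] [NumberField K]
variable {M : IntermediateField K (AlgebraicClosure K)}
variable (e : AlgebraicClosure M ≃ₐ[M] AlgebraicClosure K)

/-- the homomorphism of the Galois groups -/
noncomputable def io : GK M →* GK K where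
  toFun σ := ((e.symm.trans σ).trans e).restrictScalars K
  map_one' := by
    apply AlgEquiv.ext
    intro x
    exact e.apply_symm_apply x
  map_mul' σ τ := by
    apply AlgEquiv.ext
    intro x
    show e (σ (τ (e.symm x))) = e (σ (e.symm (e (τ (e.symm x)))))
    rw [e.symm_apply_apply]

theorem io_apply (σ : GK M) (x : AlgebraicClosure K) : io e σ x = e (σ (e.symm x)) := rfl

end

theorem main : S_FXE := by
  intro K _ _ H hH
  have hcl : IsClosed (H : Set (GK K)) := Subgroup.isClosed_of_isOpen H hH
  let H' : ClosedSubgroup (GK K) := ⟨H, hcl⟩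
  have h1 : (IntermediateField.fixedField (H : Subgroup (GK K))).fixingSubgroup = H :=
    InfiniteGalois.fixingSubgroup_fixedField H'
  obtain ⟨M, hM⟩ : ∃ M : IntermediateField K (AlgebraicClosure K),
      M = IntermediateField.fixedField H := ⟨_, rfl⟩
  rw [← hM] at h1
  have hfd : FiniteDimensional K M := by
    rw [← InfiniteGalois.isOpen_iff_finite, h1]
    exact hH
  have hnf : NumberField M := NumberField.of_module_finite K M
  have hac : IsAlgClosure M (AlgebraicClosure K) :=
    ⟨inferInstance, Algebra.IsAlgebraic.tower_top (K := K) M⟩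
  let e : AlgebraicClosure M ≃ₐ[M] AlgebraicClosure K :=
    IsAlgClosure.equiv M (AlgebraicClosure M) (AlgebraicClosure K)
  have he : ∀ x : M, e.toRingEquiv (algebraMap M (AlgebraicClosure M) x) =
      (x : AlgebraicClosure K) := fun x => e.commutes x
  refine ⟨M, inferInstance, hnf, inferInstance, io e, e.toRingEquiv, ?_, ?_, ?_⟩
  · intro x
    rw [he]
    rfl
  · intro g
    constructor
    · intro hg x
      rw [he]
      rw [← h1] at hg
      exact (IntermediateField.mem_fixingSubgroup_iff M g).1 hg _ x.2
    · intro h
      rw [← h1, IntermediateField.mem_fixingSubgroup_iff]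
      intro x hx
      have h2 := h ⟨x, hx⟩
      rw [he] at h2
      exact h2
  · intro s x
    show e (s (e.symm (e x))) = e (s x)
    rw [e.symm_apply_apply]

end Pool.Agent.H721.ED.FXE
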